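import Mathlib
import Pool.Agent.H39.FG5

set_option autoImplicit false

namespace Pool.Agent.Results.MP_1b52a3_lc.NoReduction

open Set MeasureTheory Pool.Agent.H39.FG

theorem result (X : Type) [MeasurableSpace X] [StandardBorelSpace X] (μ : Measure X)
    [IsProbabilityMeasure μ] [NullSingletonClass μ] (T0 : Aut μ) :
    (¬∃ f : AutQ μ → FullGroup T0, @Measurable _ _ (borel _) (borel _) f ∧
      ∀ a b, ConjAut a b ↔ ∃ U : FullGroup T0, f a = U * f b * U⁻¹) ∧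
    (¬∃ f : ErgAut μ → ErgFull T0, @Measurable _ _ (borel _) (borel _) f ∧
      ∀ a b, ConjAut a.1 b.1 ↔ ∃ U : FullGroup T0, (f a).1 = U * (f b).1 * U⁻¹) ∧
    ¬∃ f : ErgAut μ → FullGroup T0, @Measurable _ _ (borel _) (borel _) f ∧
      ∀ a b, ConjAut a.1 b.1 ↔ ∃ U : FullGroup T0, f a = U * f b * U⁻¹ := by
  have h : ¬∃ f : ErgAut μ → FullGroup T0, @Measurable _ _ (borel _) (borel _) f ∧
      ∀ a b, ConjAut a.1 b.1 ↔ ∃ U : FullGroup T0, f a = U * f b * U⁻¹ := fun ⟨f, h1, h2⟩ =>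
    no_red_erg T0 ⟨f, h1, fun a b => by simp only [h2, isConj_iff, eq_comm]⟩
  exact ⟨fun ⟨f, h1, h2⟩ => h ⟨f ∘ (↑), @Measurable.comp _ _ _ (borel _) (borel _) (borel _) _ _ h1
      continuous_subtype_val.borel_measurable, fun a b => h2 a b⟩,
    fun ⟨f, h1, h2⟩ => h ⟨Subtype.val ∘ f, @Measurable.comp _ _ _ (borel _) (borel _) (borel _) _ _
      continuous_subtype_val.borel_measurable h1, fun a b => h2 a b⟩, h⟩

end Pool.Agent.Results.MP_1b52a3_lc.NoReduction
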